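import Pool.Agent.W353.TD.Alg
import Pool.Agent.W353.EF.Defs

/-!
# Tate's conjecture on the pole over extension fields: definitions

`X` is a smooth projective variety over a number field `K`, of dimension `d`, and `m` an integer,
`0 ≤ m ≤ d`.  `L(H^{2m}(X_F), s)` is an Euler product over the primes of `F`, for every number field
`F ⊇ K`.
-/

set_option autoImplicit false

namespace Pool.Agent.W353.TD

open NumberField IsDedekindDomain Filter Topology Polynomial IntermediateField
open Pool.Agent.W353.EF (IsFrobenius IsEulerSystem LFun size perm derangements closure youngField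
  quadField meanAbs)
open scoped TensorProduct

/-- The multiset of the complex eigenvalues of an endomorphism of a rational vector space. -/
noncomputable def eigenvalues {V : Type} [AddCommGroup V] [Module ℚ V] [FiniteDimensional ℚ V]
    (f : Module.End ℚ V) : Multiset ℂ :=
  (f.charpoly.map (algebraMap ℚ ℂ)).roots

section
variable {K : Type} [Field K]

/-- `σ` is an arithmetic Frobenius element at the prime `v` of `K`: there is a maximal ideal `Q` above
`v` of the ring of all algebraic integers with `σ x ≡ x ^ q_v` modulo `Q` for all `x`. -/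
def IsFrobeniusElement [NumberField K] (v : HeightOneSpectrum (𝓞 K))
    (σ : Gal(AlgebraicClosure K/K)) : Prop :=
  ∃ Q : Ideal (𝓞 (AlgebraicClosure K)), Q.IsMaximal ∧
    Q.comap (algebraMap (𝓞 K) (𝓞 (AlgebraicClosure K))) = v.asIdeal ∧
    ∀ x : 𝓞 (AlgebraicClosure K), σ • x - x ^ Ideal.absNorm v.asIdeal ∈ Q

variable {V : Type} [AddCommGroup V] [Module ℚ V]

/-- `V`, with the action `ρ` of the absolute Galois group of `K`, is a part of the cohomology
`H^{2m}(X)(m)`: the action is trivial on an open subgroup, and for almost all primes `v` the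
eigenvalues of the geometric Frobenius `σ⁻¹` on `V`, multiplied by `q_v^m`, are among the eigenvalues
of the geometric Frobenius on `H^{2m}(X)`, with multiplicities.  The main example is
`V = A^m(X) ⊗ ℚ` for the group `A^m(X)` of the classes, up to homological equivalence, of the
algebraic cycles of codimension `m` defined over the algebraic closure. -/
def IsPart [NumberField K] [FiniteDimensional ℚ V] {n : ℕ}
    (X : Set (MvPolynomial (Fin n) (𝓞 K))) (d m N : ℕ)
    (ρ : Representation ℚ Gal(AlgebraicClosure K/K) V) : Prop :=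
  (∃ U : Subgroup Gal(AlgebraicClosure K/K), IsOpen (U : Set Gal(AlgebraicClosure K/K)) ∧
    ∀ u ∈ U, ρ u = 1) ∧
  ∀ᶠ v in cofinite, ∀ σ, IsFrobeniusElement v σ → ∃ α : Fin N → ℂ,
    IsFrobenius X d (2 * m) v α ∧
      (eigenvalues (ρ σ⁻¹)).map (fun z => (Ideal.absNorm v.asIdeal : ℂ) ^ m * z) ≤
        Finset.univ.val.map α

/-- The dimension of the space of the elements of `V` fixed by the absolute Galois group of `F`.  For
`V = A^m(X) ⊗ ℚ` this is the rank of the group `B^m(X_F)` of the classes of the cycles defined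
over `F`; for `m = 1` it is the rank of the Néron–Severi group over `F`. -/
noncomputable def rank (ρ : Representation ℚ Gal(AlgebraicClosure K/K) V)
    (F : IntermediateField K (AlgebraicClosure K)) : ℕ :=
  Module.finrank ℚ (Representation.invariants (ρ.comp F.fixingSubgroup.subtype))

/-- `L(H^{2m}(X_F), s)` has the order `δ - rank ρ F` at `s = m + 1`, in the sense that
`log |L(m + 1 + ε)| / log(1/ε)` tends to `rank ρ F - δ` as `ε → 0+`; this holds if there is a
meromorphic continuation to a neighbourhood of `m + 1` of this order, or if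
`ε ^ (rank ρ F - δ) L(m + 1 + ε)` has a finite nonzero limit.  Tate's conjecture over `F` says that
this is true for `δ = 0` and `V = A^m(X) ⊗ ℚ`. -/
def Defect {n : ℕ} (X : Set (MvPolynomial (Fin n) (𝓞 K))) (d m N : ℕ)
    (ρ : Representation ℚ Gal(AlgebraicClosure K/K) V)
    (F : IntermediateField K (AlgebraicClosure K)) (δ : ℤ) : Prop :=
  ∃ (_ : NumberField F) (B : HeightOneSpectrum (𝓞 F) → ℂ[X]), IsEulerSystem X d (2 * m) N B ∧
    Tendsto (size (2 * m) B) (𝓝[>] 0) (𝓝 ((rank ρ F : ℝ) - δ))

end

section
variable {K : Type} [Field K] {n : ℕ} (X : Set (MvPolynomial (Fin n) (𝓞 K)))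
  (d m N : ℕ) {V : Type} [AddCommGroup V] [Module ℚ V]
  (ρ : Representation ℚ Gal(AlgebraicClosure K/K) V)

/-- For arbitrarily small `ε > 0` the values of `log |L(m + 1 + ε)| / log(1/ε) - rank` over `F` and over
`F ∩ M` differ by less than `1/k` (no continuation is assumed here), and the defects over `F` and over
`F ∩ M`, if both exist, are equal. -/
def DefectGovernedBy (k : ℕ) (M F : IntermediateField K (AlgebraicClosure K)) : Prop :=
  (∀ [NumberField F] [NumberField (F ⊓ M : IntermediateField K (AlgebraicClosure K))]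
    (B : HeightOneSpectrum (𝓞 F) → ℂ[X])
    (B' : HeightOneSpectrum (𝓞 (F ⊓ M : IntermediateField K (AlgebraicClosure K))) → ℂ[X]),
    IsEulerSystem X d (2 * m) N B → IsEulerSystem X d (2 * m) N B' →
    ∃ᶠ ε : ℝ in 𝓝[>] 0, |(size (2 * m) B ε - rank ρ F) - (size (2 * m) B' ε -
      rank ρ (F ⊓ M : IntermediateField K (AlgebraicClosure K)))| < 1 / k) ∧
  ∀ δ δ' : ℤ, Defect X d m N ρ F δ →
    Defect X d m N ρ (F ⊓ M : IntermediateField K (AlgebraicClosure K)) δ' → δ = δ'

/-- Let `s = N - dim V`.  There is a finite Galois extension `M` of `K` such that the values over `F`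
and `F ∩ M` are related as above for all number fields `F ⊇ K` for which `F ⊗_K F` is a product of at
most `c` fields; and there is such an extension `M` of degree at most `(c!)^(2 c (ks)²)` for all
number fields `F ⊇ K` of degree at most `c`. -/
def OneFieldGovernsDefects (c k : ℕ) : Prop :=
  (∃ M : IntermediateField K (AlgebraicClosure K), FiniteDimensional K M ∧ IsGalois K M ∧
    ∀ F : IntermediateField K (AlgebraicClosure K),
      Nat.card (MaximalSpectrum (F ⊗[K] F)) ≤ c → DefectGovernedBy X d m N ρ k M F) ∧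
  ∃ M : IntermediateField K (AlgebraicClosure K), FiniteDimensional K M ∧ IsGalois K M ∧
    Module.finrank K M ≤ c.factorial ^ (2 * c * (k * (N - Module.finrank ℚ V)) ^ 2) ∧
    ∀ F : IntermediateField K (AlgebraicClosure K),
      Module.finrank K F ≤ c → DefectGovernedBy X d m N ρ k M F

/-- Let `s = N - dim V`.  The inequality `|∑ c_k (x_k - rank)| ≤ s · meanAbs + η` for the values
`x_k = log |L(m + 1 + ε)| / log(1/ε)` over number fields `F_1, …, F_l`, for all `η > 0` and all small
`ε > 0` (no continuation is assumed here), and the inequality `|∑ c_k δ_k| ≤ s · meanAbs` for the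
defects, if they exist.  The same for two fields `F` and `K`, with `2 s p` for the proportion `p` of
derangements. -/
def DefectRelations : Prop :=
  (∀ (l : ℕ) (F : Fin l → IntermediateField K (AlgebraicClosure K)) [∀ k, NumberField (F k)]
    (c : Fin l → ℝ) (B : ∀ k, HeightOneSpectrum (𝓞 (F k)) → ℂ[X]),
    (∀ k, IsEulerSystem X d (2 * m) N (B k)) → ∀ η : ℝ, 0 < η → ∀ᶠ ε : ℝ in 𝓝[>] 0,
    |∑ k, c k * (size (2 * m) (B k) ε - rank ρ (F k))| ≤
      ((N - Module.finrank ℚ V : ℕ) : ℝ) * meanAbs K (fun k => F k) c + η) ∧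
  (∀ (l : ℕ) (F : Fin l → IntermediateField K (AlgebraicClosure K)) (c : Fin l → ℝ)
    (δ : Fin l → ℤ), (∀ k, Defect X d m N ρ (F k) (δ k)) →
    |∑ k, c k * δ k| ≤ ((N - Module.finrank ℚ V : ℕ) : ℝ) * meanAbs K (fun k => F k) c) ∧
  (∀ (F : IntermediateField K (AlgebraicClosure K)) [NumberField F]
    [NumberField (⊥ : IntermediateField K (AlgebraicClosure K))]
    (B : HeightOneSpectrum (𝓞 F) → ℂ[X])
    (B' : HeightOneSpectrum (𝓞 (⊥ : IntermediateField K (AlgebraicClosure K))) → ℂ[X]),
    IsEulerSystem X d (2 * m) N B → IsEulerSystem X d (2 * m) N B' →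
    ∀ η : ℝ, 0 < η → ∀ᶠ ε : ℝ in 𝓝[>] 0,
    |(size (2 * m) B ε - rank ρ F) - (size (2 * m) B' ε - rank ρ ⊥)| ≤
      2 * ((N - Module.finrank ℚ V : ℕ) : ℝ) * derangements K F + η) ∧
  ∀ (F : IntermediateField K (AlgebraicClosure K)) (δ δ' : ℤ), Defect X d m N ρ F δ →
    Defect X d m N ρ ⊥ δ' →
    |(δ : ℝ) - δ'| ≤ 2 * ((N - Module.finrank ℚ V : ℕ) : ℝ) * derangements K F

/-- Let `s = N - dim V`.  If `p` is a prime and `[K(ζ_p) : K] > 2 s`, then the values of
`log |L(m + 1 + ε)| / log(1/ε) - rank` over `K` and over a radical extension `K(α)` of degree `p`,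
`α ^ p ∈ K`, differ by less than `1` for all small `ε > 0` (no continuation is assumed here), and the
defects over `K` and over `K(α)`, if both exist, are equal. -/
def RadicalDefects : Prop :=
  ∀ (p : ℕ) (ζ α : AlgebraicClosure K) (a : K), p.Prime → IsPrimitiveRoot ζ p →
    2 * (N - Module.finrank ℚ V) < Module.finrank K K⟮ζ⟯ →
    α ^ p = algebraMap K (AlgebraicClosure K) a → Module.finrank K K⟮α⟯ = p →
    (∀ [NumberField K⟮α⟯] [NumberField (⊥ : IntermediateField K (AlgebraicClosure K))]
      (B : HeightOneSpectrum (𝓞 K⟮α⟯) → ℂ[X])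
      (B' : HeightOneSpectrum (𝓞 (⊥ : IntermediateField K (AlgebraicClosure K))) → ℂ[X]),
      IsEulerSystem X d (2 * m) N B → IsEulerSystem X d (2 * m) N B' →
      ∀ᶠ ε : ℝ in 𝓝[>] 0,
        |(size (2 * m) B ε - rank ρ K⟮α⟯) - (size (2 * m) B' ε - rank ρ ⊥)| < 1) ∧
    ∀ δ δ' : ℤ, Defect X d m N ρ K⟮α⟯ δ → Defect X d m N ρ ⊥ δ' → δ = δ'

open Classical in
/-- The defect over the field `M`, `K ⊆ M ⊆ L`, expected from the defects over the Young subfields:
the defect over `L` if `M` contains `K(√disc F)`, and the defect over `K` if not. -/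
noncomputable def expectedDefect [NumberField K] (F : Type) [Field F] [NumberField F] [Algebra K F]
    (δ : Setoid (F →ₐ[K] AlgebraicClosure K) → ℤ)
    (M : IntermediateField K (AlgebraicClosure K)) : ℤ :=
  if quadField K F ≤ M then δ ⊥ else δ ⊤

/-- Let `F/K` be an extension of degree at least `n₀` such that all permutations of the embeddings of
`F` are given by the absolute Galois group of `K`, and suppose that there are defects `δ r` over
all Young subfields of the closure `L` (those for `r = ⊤` and `r = ⊥` are `K` and `L`).  Then for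
every field `M` between `K` and `L` the `L`-function is different from zero at `m + 1 + ε` for small
`ε > 0`, and the defect over `M` exists and is the expected one.  Moreover
`|δ ⊤| + |δ ⊥ - δ ⊤| ≤ N - dim V`. -/
def SymmetricDefects [NumberField K] (n₀ : ℕ) : Prop :=
  ∀ (F : Type) [Field F] [NumberField F] [Algebra K F], Function.Surjective (perm K F) →
    n₀ ≤ Module.finrank K F → ∀ δ : Setoid (F →ₐ[K] AlgebraicClosure K) → ℤ,
    (∀ r, Defect X d m N ρ (youngField K F r) (δ r)) →
    (∀ (M : IntermediateField K (AlgebraicClosure K)) [NumberField M], M ≤ closure K F →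
      ∀ B : HeightOneSpectrum (𝓞 M) → ℂ[X], IsEulerSystem X d (2 * m) N B →
      (∀ᶠ ε : ℝ in 𝓝[>] 0, LFun B (((2 * m : ℕ) : ℂ) / 2 + 1 + ε) ≠ 0) ∧
      Tendsto (size (2 * m) B) (𝓝[>] 0) (𝓝 ((rank ρ M : ℝ) - expectedDefect F δ M))) ∧
    |δ ⊤| + |δ ⊥ - δ ⊤| ≤ ((N - Module.finrank ℚ V : ℕ) : ℤ)

end

end Pool.Agent.W353.TD
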