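import Pool.Agent.W353.TD.Base

/-! Tate's conjecture on the pole over extension fields: proofs. -/

set_option autoImplicit false

namespace Pool.Agent.W353.TD

open NumberField IsDedekindDomain Filter Topology Polynomial IntermediateField
open Pool.Agent.W353.EF (IsFrobenius IsEulerSystem LFun size perm derangements closure youngField
  quadField meanAbs)
open scoped TensorProduct

open Classical in
open Pool.Agent.W353.NF Pool.Agent.W353.AB Pool.Agent.W353.SN Pool.Agent.W353.PV in
/-- the three results together -/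
theorem all (s : ℕ) : ∃ n₀ : ℕ, ∀ (K : Type) [Field K] [NumberField K] (n d m N : ℕ)
    (X : Set (MvPolynomial (Fin n) (𝓞 K))) (V : Type) [AddCommGroup V] [Module ℚ V]
    [FiniteDimensional ℚ V] (ρ : Representation ℚ Gal(AlgebraicClosure K/K) V), m ≤ d →
    N - Module.finrank ℚ V = s → IsPart X d m N ρ →
    (∀ c k : ℕ, 1 ≤ k → OneFieldGovernsDefects X d m N ρ c k) ∧ DefectRelations X d m N ρ ∧
      RadicalDefects X d m N ρ ∧ SymmetricDefects X d m N ρ n₀ := by
  classical
  obtain ⟨n₁, hbig⟩ := big (s : ℝ)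
  refine ⟨n₁, fun K _ _ n d m N X V _ _ _ ρ hmd hs hpart => ?_⟩
  have hi : 2 * m ≤ 2 * d := by omega
  have hkap : kap 0 = 1 := by
    unfold kap
    rw [if_pos rfl]
  choose σ hσ using Pool.Agent.W540.BE.exists_isFrob (F := K)
  obtain ⟨hρ, hV⟩ := hpart
  have hgood : ∀ᶠ v in cofinite, |tF X d (2 * m) N K v - ch ρ (σ v)⁻¹| ≤ s := by
    refine hV.mono fun v hv => ?_
    obtain ⟨α, h1, h2⟩ := hv (σ v) (hσ v)
    have h3 := tF_sub_le (ρ := ρ) hi (σ := σ v) h1 h2
    rwa [hs] at h3
  have hrank : ∀ F : IntermediateField K (AlgebraicClosure K),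
      rank ρ F = Module.finrank ℚ (inv ρ F.val.fieldRange.fixingSubgroup) := by
    intro F
    rw [inv_eq, IntermediateField.fieldRange_val]
    rfl
  have hsz : ∀ (F : IntermediateField K (AlgebraicClosure K)) [NumberField F]
      (B : HeightOneSpectrum (𝓞 F) → ℂ[X]) (e : Fin 0 → 𝓞 F), IsEulerSystem X d (2 * m) N B →
      (∀ᶠ ε : ℝ in 𝓝[>] 0, LFun B (((2 * m : ℕ) : ℂ) / 2 + 1 + ε) ≠ 0) ∧
      (syD ρ X d (2 * m) N s σ).IsSize (F := F) e 0
        (fun ε => size (2 * m) B ε - rank ρ F) := by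
    intro F _ B e hB
    have h1 := size_X0 hi B hB.1 hB.2 e
    refine ⟨h1.1, ?_⟩
    rw [hrank]
    exact size_D ρ X d (2 * m) N s σ hσ hgood hρ e _ h1.2 F.val
  have hlim : ∀ (F : IntermediateField K (AlgebraicClosure K)) [NumberField F]
      (B : HeightOneSpectrum (𝓞 F) → ℂ[X]) (δ : ℤ),
      Tendsto (size (2 * m) B) (𝓝[>] 0) (𝓝 ((rank ρ F : ℝ) - δ)) →
      Tendsto (fun ε => size (2 * m) B ε - rank ρ F) (𝓝[>] 0) (𝓝 (-(δ : ℝ))) := by
    intro F _ B δ h
    have := h.sub_const (rank ρ F : ℝ)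
    have e : (rank ρ F : ℝ) - δ - rank ρ F = -δ := by ring
    rwa [e] at this
  have hint : ∀ m m' : ℤ, |(m : ℝ) - m'| < 1 → m = m' := by
    intro m m' h
    have h1 : |m - m'| < 1 := by exact_mod_cast h
    rw [Int.abs_lt_one_iff] at h1
    omega
  have hder0 : ∀ (F : IntermediateField K (AlgebraicClosure K)) [NumberField F]
      [NumberField (⊥ : IntermediateField K (AlgebraicClosure K))]
      (B : HeightOneSpectrum (𝓞 F) → ℂ[X])
      (B' : HeightOneSpectrum (𝓞 (⊥ : IntermediateField K (AlgebraicClosure K))) → ℂ[X]),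
      IsEulerSystem X d (2 * m) N B → IsEulerSystem X d (2 * m) N B' →
      ∀ η : ℝ, 0 < η → ∀ᶠ ε : ℝ in 𝓝[>] 0,
      |(size (2 * m) B ε - rank ρ F) - (size (2 * m) B' ε - rank ρ ⊥)| ≤
        2 * ((N - Module.finrank ℚ V : ℕ) : ℝ) * derangements K F + η := by
    intro F _ _ B B' hB hB' η hη
    have h1 := ineq2' (K := K) (F := F) fixn_bot (syD ρ X d (2 * m) N s σ)
      (syD_real ρ X d (2 * m) N s σ) 0 _ _
      (hsz ⊥ B' (fun _ => 1) hB').2 (hsz F B (fun _ => 1) hB).2 hη
    rw [syD_b, hkap] at h1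
    refine h1.mono fun ε hε => hε.trans (le_of_eq ?_)
    rw [hs]
    change (s : ℝ) * (1 * (2 * drg K F)) + η = 2 * s * drg K F + η
    ring
  have hder : ∀ (F : IntermediateField K (AlgebraicClosure K)) (δ δ' : ℤ),
      Defect X d m N ρ F δ → Defect X d m N ρ ⊥ δ' →
      |(δ : ℝ) - δ'| ≤ 2 * ((N - Module.finrank ℚ V : ℕ) : ℝ) * derangements K F := by
    rintro F δ δ' ⟨_, B, hB, hδ⟩ ⟨_, B', hB', hδ'⟩
    have t1 := hlim F B δ hδ
    have t2 := hlim ⊥ B' δ' hδ'
    refine le_of_forall_pos_le_add fun η hη => ?_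
    have t3 := (t1.sub t2).abs
    have e : |-(δ : ℝ) - -(δ' : ℝ)| = |(δ : ℝ) - δ'| := by
      rw [← abs_neg]
      congr 1
      ring
    rw [e] at t3
    exact le_of_tendsto t3 (hder0 F B B' hB hB' η hη)
  have hgov : ∀ (c k : ℕ) (_ : 1 ≤ k)
      (P : ∀ (F : IntermediateField K (AlgebraicClosure K)) [NumberField F],
      Prop) (_ : ∀ (F : IntermediateField K (AlgebraicClosure K)) [NumberField F], P F →
        Nat.card (MaximalSpectrum (F ⊗[K] F)) ≤ c)
      (_ : ∀ (F F₀ : IntermediateField K (AlgebraicClosure K)) [NumberField F] [NumberField F₀],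
        F₀ ≤ F → P F → P F₀),
      ∃ M : IntermediateField K (AlgebraicClosure K), FiniteDimensional K M ∧ IsGalois K M ∧
        ((∀ (F : IntermediateField K (AlgebraicClosure K)) [NumberField F], P F →
          Module.finrank K F ≤ c) → Module.finrank K M ≤ c.factorial ^ (2 * c * (k * s) ^ 2)) ∧
        ∀ (F : IntermediateField K (AlgebraicClosure K)) [NumberField F], P F →
          DefectGovernedBy X d m N ρ k M F := by
    intro c k hk P hP hP'
    obtain ⟨M, h1, h2, h3, h4⟩ := govD ρ X d (2 * m) N s σ c c P hP k hk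
    refine ⟨M, h1, h2, fun h => h3 h, fun F _ hF => ⟨?_, ?_⟩⟩
    · intro _ _ B B' hB hB'
      exact (h4 F (F ⊓ M) rfl (fun _ => 1) (fun _ => 1) 0 _ _
        (hsz F B (fun _ => 1) hB).2 (hsz _ B' (fun _ => 1) hB').2 hF
        (hP' F (F ⊓ M) inf_le_left hF)).1
    · rintro δ δ' ⟨_, B, hB, hδ⟩ ⟨_, B', hB', hδ'⟩
      obtain ⟨-, h5⟩ := h4 F (F ⊓ M) rfl (fun _ => 1) (fun _ => 1) 0 _ _
        (hsz F B (fun _ => 1) hB).2 (hsz _ B' (fun _ => 1) hB').2 hF
        (hP' F (F ⊓ M) inf_le_left hF)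
      have h6 := h5 _ _ (hlim F B δ hδ) (hlim _ B' δ' hδ')
      refine hint δ δ' ?_
      have e : |-(δ : ℝ) - -(δ' : ℝ)| = |(δ : ℝ) - δ'| := by
        rw [← abs_neg]
        congr 1
        ring
      rw [e] at h6
      have hkR : (1 : ℝ) ≤ k := by exact_mod_cast hk
      refine lt_of_lt_of_le h6 ?_
      rw [div_le_one (by linarith)]
      exact hkR
  have hine : ∀ (l : ℕ) (F : Fin l → IntermediateField K (AlgebraicClosure K))
      [∀ k, NumberField (F k)] (c : Fin l → ℝ) (B : ∀ k, HeightOneSpectrum (𝓞 (F k)) → ℂ[X]),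
      (∀ k, IsEulerSystem X d (2 * m) N (B k)) → ∀ η : ℝ, 0 < η → ∀ᶠ ε : ℝ in 𝓝[>] 0,
      |∑ k, c k * (size (2 * m) (B k) ε - rank ρ (F k))| ≤
        ((N - Module.finrank ℚ V : ℕ) : ℝ) * meanAbs K (fun k => F k) c + η := by
    intro l F _ c B hB η hη
    have hmean : meanAbs K (fun k => F k) c = Pool.Agent.W353.L1.avR
        (MonoidHom.pi fun k => act K (F k)).ker
        (fun q => |∑ k, c k * (fixn K (F k) q.out : ℝ)|) :=
      (avR_ker (MonoidHom.pi fun k => act K (F k)) fun g =>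
        |∑ k, c k * (Nat.card {i : F k →ₐ[K] AlgebraicClosure K // g k i = i} : ℝ)|).symm
    have hopen : IsOpen ((MonoidHom.pi fun k => act K (F k)).ker :
        Set (Pool.Agent.W401.Cheb.GK K)) := by
      have e : ((MonoidHom.pi fun k => act K (F k)).ker : Set (Pool.Agent.W401.Cheb.GK K)) =
          ⋂ k, ((act K (F k)).ker : Set (Pool.Agent.W401.Cheb.GK K)) := by
        ext σ
        rw [SetLike.mem_coe, MonoidHom.mem_ker, Set.mem_iInter, funext_iff]
        rfl
      rw [e]
      exact isOpen_iInter_of_finite fun k => ker_act_open K (F k)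
    have hfin : Finite (Pool.Agent.W401.Cheb.GK K ⧸ (MonoidHom.pi fun k => act K (F k)).ker) :=
      Subgroup.quotient_finite_of_isOpen _ hopen
    have h1 := ineq1 (syD ρ X d (2 * m) N s σ) (syD_real ρ X d (2 * m) N s σ)
      (MonoidHom.pi fun k => act K (F k)).ker hopen
      Finset.univ (fun k => F k) (fun k _ u hu => congrFun ((MonoidHom.mem_ker).1 hu) k) 0
      (fun k ε => size (2 * m) (B k) ε - rank ρ (F k))
      (fun k _ => (hsz (F k) (B k) (fun _ => 1) (hB k)).2) c hη
    rw [syD_b, ← hmean, hkap, one_mul] at h1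
    rw [hs]
    exact h1
  refine ⟨fun c k hk => ⟨?_, ?_⟩, ⟨?_, ?_, hder0, hder⟩, ?_, ?_⟩
  · obtain ⟨M, h1, h2, -, h3⟩ := hgov c k hk
      (fun F _ => Nat.card (MaximalSpectrum (F ⊗[K] F)) ≤ c) (fun F _ h => h)
      (fun F F₀ _ _ h hF => (rank_mono h).trans hF)
    refine ⟨M, h1, h2, fun F hF => ⟨fun B B' hB hB' => (h3 F hF).1 B B' hB hB',
      fun δ δ' hδ hδ' => ?_⟩⟩
    obtain ⟨hnf, -⟩ := id hδ
    exact (h3 F hF).2 δ δ' hδ hδ'
  · obtain ⟨M, h1, h2, h4, h3⟩ := hgov c k hk
      (fun F _ => Module.finrank K F ≤ c)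
      (fun F _ h => by
        refine le_trans ?_ h
        rw [Nat.card_eq_fintype_card]
        exact Pool.Agent.W353.TP.card_max_le K F F)
      (fun F F₀ _ _ h hF => (Pool.Agent.W353.TP.finrank_mono' h).trans hF)
    refine ⟨M, h1, h2, by rw [hs]; exact h4 fun F _ h => h,
      fun F hF => ⟨fun B B' hB hB' => (h3 F hF).1 B B' hB hB', fun δ δ' hδ hδ' => ?_⟩⟩
    obtain ⟨hnf, -⟩ := id hδ
    exact (h3 F hF).2 δ δ' hδ hδ'
  · exact hine
  · intro l F c δ hδ
    choose hnf B hB hδ using hδ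
    exact Pool.Agent.W353.L1.lim_le (K := Finset.univ)
      (fun k _ => hlim (F k) (B k) (δ k) (hδ k)) c (hine l F c B hB)
  · intro p ζ α a hp hζ hN hα hdeg
    have hnf : NumberField K⟮α⟯ := by
      have hfd : FiniteDimensional K K⟮α⟯ :=
        FiniteDimensional.of_finrank_pos (by rw [hdeg]; exact hp.pos)
      have hfq : FiniteDimensional ℚ K⟮α⟯ := FiniteDimensional.trans ℚ K K⟮α⟯
      exact { to_charZero := inferInstance, to_finiteDimensional := hfq }
    have h2 : derangements K K⟮α⟯ ≤ 1 / Module.finrank K K⟮ζ⟯ := drg_rad hp hζ hα hdeg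
    have h3 : (2 * ((N - Module.finrank ℚ V : ℕ) : ℝ)) < Module.finrank K K⟮ζ⟯ := by
      exact_mod_cast hN
    have h4 : (0 : ℝ) < Module.finrank K K⟮ζ⟯ := lt_of_le_of_lt (by positivity) h3
    have h5 : 2 * ((N - Module.finrank ℚ V : ℕ) : ℝ) * derangements K K⟮α⟯ < 1 := by
      refine lt_of_le_of_lt (mul_le_mul_of_nonneg_left h2 (by positivity)) ?_
      rw [mul_one_div, div_lt_one h4]
      exact h3
    refine ⟨fun B B' hB hB' => ?_, fun δ δ' hδ hδ' =>
      hint δ δ' (lt_of_le_of_lt (hder K⟮α⟯ δ δ' hδ hδ') h5)⟩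
    have h6 := hder0 K⟮α⟯ B B' hB hB'
      ((1 - 2 * ((N - Module.finrank ℚ V : ℕ) : ℝ) * derangements K K⟮α⟯) / 2) (by linarith)
    filter_upwards [h6] with ε h7
    linarith
  · intro F _ _ _ hF hn δ hδ
    -- the fields of the Young subgroups
    have hyoung : ∀ r : Setoid (F →ₐ[K] AlgebraicClosure K), youngField K F r =
        MH K F (yg r) := fun r => rfl
    have hbot : yg (⊥ : Setoid (F →ₐ[K] AlgebraicClosure K)) = ⊥ := by
      ext g
      rw [mem_yg, Subgroup.mem_bot]
      constructor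
      · intro h
        exact Equiv.ext fun x => (h x).symm
      · intro h x
        rw [h]
        rfl
    have htop : yg (⊤ : Setoid (F →ₐ[K] AlgebraicClosure K)) = ⊤ := by
      ext g
      exact ⟨fun _ => trivial, fun _ _ => trivial⟩
    -- the limits
    have core : ∀ 𝒰 : Ultrafilter ℝ, (𝒰 : Filter ℝ) ≤ 𝓝[>] 0 → ∃ a b : ℤ,
        δ ⊥ = -(a + b) ∧
        δ ⊤ = -(a + b * (if (∀ h ∈ (⊤ : Subgroup (PX K F)), Equiv.Perm.sign h = 1) then 1
          else 0)) ∧
        |((a + b : ℤ) : ℝ)| ≤ s ∧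
        ((∃ h : PX K F, Equiv.Perm.sign h ≠ 1) → |((a - b : ℤ) : ℝ)| ≤ s) ∧
        ∀ (H : Subgroup (PX K F)) [NumberField (MH K F H)] (Y : ℝ → ℝ),
          (syD ρ X d (2 * m) N s σ).IsSize (F := MH K F H) (fun _ => 1) 0 Y → Tendsto Y 𝒰
            (𝓝 ((a + b * (if (∀ h ∈ H, Equiv.Perm.sign h = 1) then 1 else 0) : ℤ) : ℝ)) := by
      intro 𝒰 h𝒰
      obtain ⟨θ, hθb, hθc, hθs⟩ := exists_theta (K := K) (F := F) (syD ρ X d (2 * m) N s σ)
        (syD_real ρ X d (2 * m) N s σ) hF 0 𝒰 h𝒰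
      rw [syD_b, hkap, mul_one] at hθb
      -- sums over the subgroups
      have hsum : ∀ (H : Subgroup (PX K F)) (k : ℤ), Defect X d m N ρ (MH K F H) k →
          ∑ᶠ h : H, θ h = ((-k : ℤ) : ℝ) * Nat.card H := by
        rintro H k ⟨hnf, B, hB, hk⟩
        have h5 := (hlim (MH K F H) B k hk).mono_left h𝒰
        have h6 := hθs H _ (hsz (MH K F H) B (fun _ => 1) hB).2
        rw [tendsto_nhds_unique h6 (h5.const_mul (Nat.card H : ℝ))]
        push_cast
        ring
      have hYS : YS θ := by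
        intro r
        have h1 := hδ r
        rw [hyoung] at h1
        exact ⟨_, hsum (yg r) _ h1⟩
      obtain ⟨a, b, hab⟩ : Lin θ := by
        refine hbig _ ?_ θ (fun g u => hθc g u) hYS hθb
        have h1 : Fintype.card (F →ₐ[K] AlgebraicClosure K) = Module.finrank K F :=
          AlgHom.card K F (AlgebraicClosure K)
        convert hn
      have hHsum : ∀ H : Subgroup (PX K F), ∑ᶠ h : H, θ h =
          ((a + b * (if (∀ h ∈ H, Equiv.Perm.sign h = 1) then 1 else 0) : ℤ) : ℝ) *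
            Nat.card H := by
        intro H
        have h1 := sum_sub H θ a b
        have h2 : ∑ᶠ h : H, (θ h - (a + b * ((Equiv.Perm.sign (h : PX K F) : ℤ) : ℝ))) = 0 := by
          rw [← finsum_zero (α := H)]
          refine finsum_congr fun h => ?_
          rw [hab, sub_self]
        rw [h2, sum_sign] at h1
        have h3 : ∑ᶠ h : H, θ h = a * Nat.card H + b * (if ∀ h ∈ H, Equiv.Perm.sign h = 1 then
            (Nat.card H : ℝ) else 0) := by linarith
        rw [h3]
        split_ifs <;> push_cast <;> ring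
      have hne : ∀ H : Subgroup (PX K F), (Nat.card H : ℝ) ≠ 0 := fun H => by
        exact_mod_cast Nat.card_pos.ne'
      have hord : ∀ (H : Subgroup (PX K F)) (k : ℤ), Defect X d m N ρ (MH K F H) k →
          k = -(a + b * (if (∀ h ∈ H, Equiv.Perm.sign h = 1) then 1 else 0)) := by
        intro H k hk
        have h1 := hsum H k hk
        rw [hHsum] at h1
        have h3 := mul_right_cancel₀ (hne H) h1
        have h4 : a + b * (if (∀ h ∈ H, Equiv.Perm.sign h = 1) then 1 else 0) = -k := by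
          exact_mod_cast h3
        rw [h4, neg_neg]
      refine ⟨a, b, ?_, hord ⊤ (δ ⊤) (by rw [← htop, ← hyoung]; exact hδ ⊤), ?_, ?_, ?_⟩
      · have h1 := hord ⊥ (δ ⊥) (by rw [← hbot, ← hyoung]; exact hδ ⊥)
        rw [if_pos (fun h hh => by rw [(Subgroup.mem_bot).1 hh, Equiv.Perm.sign_one]),
          mul_one] at h1
        exact h1
      · have h1 := hθb 1
        rw [hab 1, Equiv.Perm.sign_one] at h1
        push_cast at h1 ⊢
        rwa [mul_one] at h1
      · rintro ⟨g, hg⟩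
        have hg' : Equiv.Perm.sign g = -1 := (Int.units_eq_one_or _).resolve_left hg
        have h2 := hθb g
        rw [hab, hg'] at h2
        push_cast at h2 ⊢
        rwa [mul_neg, mul_one, ← sub_eq_add_neg] at h2
      · intro H _ Y hY
        have h1 := (hθs H Y hY).const_mul ((Nat.card H : ℝ)⁻¹)
        rw [hHsum] at h1
        have e : (Nat.card H : ℝ)⁻¹ * (((a + b * (if (∀ h ∈ H, Equiv.Perm.sign h = 1) then 1 else
            0) : ℤ) : ℝ) * Nat.card H) =
            ((a + b * (if (∀ h ∈ H, Equiv.Perm.sign h = 1) then 1 else 0) : ℤ) : ℝ) := by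
          rw [mul_comm, mul_assoc, mul_inv_cancel₀ (hne H), mul_one]
        rw [e] at h1
        refine h1.congr fun ε => ?_
        rw [inv_mul_cancel_left₀ (hne H)]
    refine ⟨fun M _ hM B hB => ?_, ?_⟩
    · obtain ⟨H, hH⟩ : ∃ H, M = MH K F H := ⟨_, eq_MH K F hM⟩
      subst hH
      have hsz' := hsz (MH K F H) B (fun _ => 1) hB
      have hiff : (∀ h ∈ H, Equiv.Perm.sign h = 1) ↔ quadField K F ≤ MH K F H := by
        have h3 : quadField K F =
            MH K F (Equiv.Perm.sign (α := F →ₐ[K] AlgebraicClosure K)).ker := rfl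
        rw [h3]
        constructor
        · intro h
          exact IntermediateField.fixedField_antitone (Subgroup.comap_mono h)
        · intro h g hg
          obtain ⟨σ, rfl⟩ := hF g
          have h4 := IntermediateField.fixingSubgroup_antitone h
          rw [fix_MH, fix_MH] at h4
          exact h4 (show σ ∈ H.comap (act K F) from hg)
      have hlimM : Tendsto (fun ε => size (2 * m) B ε - rank ρ (MH K F H)) (𝓝[>] 0)
          (𝓝 (-(expectedDefect F δ (MH K F H) : ℝ))) := by
        unfold expectedDefect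
        rw [tendsto_iff_ultrafilter]
        intro 𝒰 h𝒰
        obtain ⟨a, b, h1, h2, -, -, h3⟩ := core 𝒰 h𝒰
        have h4 := h3 H _ hsz'.2
        convert h4 using 2
        by_cases hQ : quadField K F ≤ MH K F H
        · rw [if_pos hQ, if_pos (hiff.2 hQ), h1]
          push_cast
          ring
        · rw [if_neg hQ, if_neg (fun h => hQ (hiff.1 h)), h2, if_neg]
          · push_cast
            ring
          · intro h
            exact hQ (hiff.1 fun g hg => h g trivial)
      refine ⟨hsz'.1, ?_⟩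
      have h5 := hlimM.add_const (rank ρ (MH K F H) : ℝ)
      simp only [sub_add_cancel] at h5
      have e : -(expectedDefect F δ (MH K F H) : ℝ) + rank ρ (MH K F H) =
          rank ρ (MH K F H) - expectedDefect F δ (MH K F H) := by ring
      rwa [e] at h5
    · obtain ⟨a, b, h1, h2, h3, h4, -⟩ := core (Ultrafilter.of (𝓝[>] 0)) (Ultrafilter.of_le _)
      have hbd : ((|δ ⊤| + |δ ⊥ - δ ⊤| : ℤ) : ℝ) ≤ s := by
        by_cases hall : ∀ g : PX K F, Equiv.Perm.sign g = 1
        · rw [if_pos fun g _ => hall g, mul_one] at h2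
          rw [h1, h2, sub_self, abs_zero, add_zero, abs_neg]
          exact_mod_cast h3
        · have hall' : ¬ ∀ g ∈ (⊤ : Subgroup (PX K F)), Equiv.Perm.sign g = 1 := fun h =>
            hall fun g => h g trivial
          rw [if_neg hall', mul_zero, add_zero] at h2
          push Not at hall
          have h5 := h4 hall
          rw [h1, h2]
          have e : -(a + b) - -a = -b := by ring
          rw [e, abs_neg, abs_neg]
          push_cast at h3 h5 ⊢
          rcases abs_cases (a : ℝ) with ⟨g3, -⟩ | ⟨g3, -⟩ <;>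
            rcases abs_cases (b : ℝ) with ⟨g4, -⟩ | ⟨g4, -⟩ <;> rw [g3, g4] <;>
            rcases abs_le.1 h3 with ⟨g5, g6⟩ <;> rcases abs_le.1 h5 with ⟨g7, g8⟩ <;> linarith
      rw [hs]
      exact_mod_cast hbd

end Pool.Agent.W353.TD
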