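import Pool.Agent.W353.TD.Sys
import Pool.Agent.W353.PV.Gov

/-! The traces on the complement of the algebraic part, and one governing extension. -/

set_option autoImplicit false

namespace Pool.Agent.W353.TD

open Complex Filter Topology ComplexConjugate NumberField IsDedekindDomain Asymptotics
  Pool.Agent.W401.Cheb Pool.Agent.W540.BE Pool.Agent.W353.L1 Polynomial
open Pool.Agent.W353.TP (HX Om inum)
open Pool.Agent.W353.AB (Sy Bd Rel prA govern)
open Pool.Agent.W353.PV (tF syX alp Eig pick_spec)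
open scoped TensorProduct

/-- the eigenvalues of an endomorphism -/
noncomputable def eig {V : Type} [AddCommGroup V] [Module ℚ V] [FiniteDimensional ℚ V]
    (f : Module.End ℚ V) : Multiset ℂ :=
  (f.charpoly.map (algebraMap ℚ ℂ)).roots

theorem eig_sum {V : Type} [AddCommGroup V] [Module ℚ V] [FiniteDimensional ℚ V]
    (f : Module.End ℚ V) : (eig f).sum = ((LinearMap.trace ℚ V f : ℚ) : ℂ) := by
  classical
  set b := Module.finBasis ℚ V
  set A := LinearMap.toMatrix b b f with hA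
  have h1 : f.charpoly = A.charpoly := (LinearMap.charpoly_toMatrix f b).symm
  have h2 : f.charpoly.map (algebraMap ℚ ℂ) = (A.map (algebraMap ℚ ℂ)).charpoly := by
    rw [h1]
    exact (Matrix.charpoly_map A (algebraMap ℚ ℂ)).symm
  unfold eig
  rw [h2, ← Matrix.trace_eq_sum_roots_charpoly, LinearMap.trace_eq_matrix_trace ℚ b f, ← hA]
  have h3 := AddMonoidHom.map_trace (algebraMap ℚ ℂ).toAddMonoidHom A
  exact h3.symm

theorem eig_card {V : Type} [AddCommGroup V] [Module ℚ V] [FiniteDimensional ℚ V]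
    (f : Module.End ℚ V) : (eig f).card = Module.finrank ℚ V := by
  unfold eig
  rw [splits_iff_card_roots.1 (IsAlgClosed.splits _), natDegree_map_eq_of_injective
    (algebraMap ℚ ℂ).injective, LinearMap.charpoly_natDegree]

section
variable {K : Type} [Field K] [NumberField K] {n : ℕ} {V : Type} [AddCommGroup V] [Module ℚ V]
  [FiniteDimensional ℚ V] {ρ : Representation ℚ (GK K) V}
  {X : Set (MvPolynomial (Fin n) (𝓞 K))} {d m N : ℕ}

/-- the traces on the complement are bounded -/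
theorem tF_sub_le (hm : 2 * m ≤ 2 * d) {v : HeightOneSpectrum (𝓞 K)} {σ : GK K}
    {α : Fin N → ℂ} (hα : Eig X d (2 * m) v α)
    (hle : (eig (ρ σ⁻¹)).map (fun z => (Ideal.absNorm v.asIdeal : ℂ) ^ m * z) ≤
      Finset.univ.val.map α) :
    |tF X d (2 * m) N K v - ch ρ σ⁻¹| ≤ ((N - Module.finrank ℚ V : ℕ) : ℝ) := by
  classical
  have h3 : Eig X d (2 * m) v (alp X d (2 * m) N K v) := pick_spec ⟨α, hα⟩
  have h4 := hα.unique' hm h3
  obtain ⟨γ, hγ⟩ := Multiset.le_iff_exists_add.1 hle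
  have hq : (1 : ℝ) < (Ideal.absNorm v.asIdeal : ℝ) := Pool.Agent.W353.PV.one_lt_norm v
  have hq0 : (0 : ℝ) < (Ideal.absNorm v.asIdeal : ℝ) := by linarith
  have hqC : (Ideal.absNorm v.asIdeal : ℂ) ≠ 0 := by
    exact_mod_cast hq0.ne'
  have hnorm : ∀ z ∈ γ, ‖z‖ = (Ideal.absNorm v.asIdeal : ℝ) ^ m := by
    intro z hz
    have h5 : z ∈ Finset.univ.val.map α := by
      rw [hγ]
      exact Multiset.mem_add.2 (Or.inr hz)
    obtain ⟨j, -, rfl⟩ := Multiset.mem_map.1 h5
    rw [hα.norm j]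
    have e : (((2 * m : ℕ) : ℝ) / 2) = (m : ℝ) := by push_cast; ring
    rw [e, Real.rpow_natCast]
  have hcard : γ.card = N - Module.finrank ℚ V := by
    have h5 := congrArg Multiset.card hγ
    rw [Multiset.card_map, Multiset.card_add, Multiset.card_map, eig_card] at h5
    have h6 : (Finset.univ : Finset (Fin N)).val.card = N := by simp
    omega
  have hsum : ∑ j, alp X d (2 * m) N K v j =
      (Ideal.absNorm v.asIdeal : ℂ) ^ m * ((LinearMap.trace ℚ V (ρ σ⁻¹) : ℚ) : ℂ) + γ.sum := by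
    have h5 := congrArg Multiset.sum (h4.symm.trans hγ)
    rw [Multiset.sum_add, Multiset.sum_map_mul_left, Multiset.map_id', eig_sum] at h5
    exact h5
  have htr : ((tF X d (2 * m) N K v : ℝ) : ℂ) = (∑ j, alp X d (2 * m) N K v j) *
      ((Ideal.absNorm v.asIdeal : ℕ) : ℂ) ^ (-((((2 * m : ℕ) : ℝ) / 2 : ℝ) : ℂ)) :=
    tr_eq (w := ((2 * m : ℕ) : ℝ) / 2) (α := alp X d (2 * m) N K) (fun j => h3.norm j) (h3.im hm)
  have hpow : ((Ideal.absNorm v.asIdeal : ℕ) : ℂ) ^ (-((((2 * m : ℕ) : ℝ) / 2 : ℝ) : ℂ)) =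
      ((Ideal.absNorm v.asIdeal : ℂ) ^ m)⁻¹ := by
    have e : ((((2 * m : ℕ) : ℝ) / 2 : ℝ) : ℂ) = (m : ℂ) := by push_cast; ring
    rw [e, Complex.cpow_neg, Complex.cpow_natCast]
  have key : ((tF X d (2 * m) N K v - ch ρ σ⁻¹ : ℝ) : ℂ) =
      γ.sum * ((Ideal.absNorm v.asIdeal : ℂ) ^ m)⁻¹ := by
    rw [Complex.ofReal_sub, htr, hpow, hsum, ch]
    have h7 : (Ideal.absNorm v.asIdeal : ℂ) ^ m ≠ 0 := pow_ne_zero _ hqC
    field_simp
    push_cast
    ring
  rw [← Real.norm_eq_abs, ← Complex.norm_real, key, norm_mul, norm_inv, norm_pow,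
    Complex.norm_natCast, ← hcard]
  have h8 : ‖γ.sum‖ ≤ γ.card * (Ideal.absNorm v.asIdeal : ℝ) ^ m := by
    refine (norm_multiset_sum_le _).trans (le_of_eq ?_)
    have h9 : γ.map (fun z => ‖z‖) = γ.map fun _ => (Ideal.absNorm v.asIdeal : ℝ) ^ m :=
      Multiset.map_congr rfl fun z hz => hnorm z hz
    rw [h9, Multiset.map_const', Multiset.sum_replicate, nsmul_eq_mul]
  have h10 : (0 : ℝ) < (Ideal.absNorm v.asIdeal : ℝ) ^ m := by positivity
  rw [← div_eq_mul_inv, div_le_iff₀ h10]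
  exact h8

/-- **One finite extension governs the defects.** -/
theorem govD (ρ : Representation ℚ (GK K) V) (X : Set (MvPolynomial (Fin n) (𝓞 K)))
    (d i N s : ℕ) (σ : HeightOneSpectrum (𝓞 K) → GK K) (c m : ℕ)
    (P : ∀ (F : IntermediateField K (Om K)) [NumberField F], Prop)
    (hP : ∀ (F : IntermediateField K (Om K)) [NumberField F], P F →
      Nat.card (MaximalSpectrum (F ⊗[K] F)) ≤ c) (k : ℕ) (hk : 1 ≤ k) :
    ∃ (M : IntermediateField K (Om K)), FiniteDimensional K M ∧ IsGalois K M ∧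
      ((∀ (F : IntermediateField K (Om K)) [NumberField F], P F → Module.finrank K F ≤ m) →
          Module.finrank K M ≤ m.factorial ^ (2 * c * (k * s) ^ 2)) ∧
      (∀ (F F₀ : IntermediateField K (Om K)) [NumberField F] [NumberField F₀],
        F₀ = F ⊓ M → ∀ (e : Fin 0 → 𝓞 F) (e₀ : Fin 0 → 𝓞 F₀) (τ : ℝ) (A B : ℝ → ℝ)
        (_ : (syD ρ X d i N s σ).IsSize (F := F) e τ A)
        (_ : (syD ρ X d i N s σ).IsSize (F := F₀) e₀ τ B),
        P F → P F₀ →
        (∃ᶠ ε : ℝ in 𝓝[>] 0, |A ε - B ε| < 1 / k) ∧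
          ∀ x y : ℝ, Tendsto A (𝓝[>] 0) (𝓝 x) → Tendsto B (𝓝[>] 0) (𝓝 y) →
            |x - y| < 1 / k) := by
  have hinum : ∀ (F : IntermediateField K (Om K)) [NumberField F] (e : Fin 0 → 𝓞 F) (j : Unit),
      inum K F F (((syD ρ X d i N s σ).D e j : 𝓞 F) : F)
        (((syD ρ X d i N s σ).D e j : 𝓞 F) : F) ≤ Nat.card (MaximalSpectrum (F ⊗[K] F)) := by
    intro F _ e j
    exact Nat.card_le_card_of_injective _ Subtype.val_injective
  obtain ⟨M, Θ, h1, h2, h3, h4, h5, h6, h7⟩ := govern (syD ρ X d i N s σ) c k m s hk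
    (syD_b ρ X d i N s σ).symm (fun F _ _ => P F)
    (fun F _ e h j _ => (hinum F e j).trans (hP F h))
  refine ⟨M, h1, h2, fun h => ?_, ?_⟩
  · have h8 := h5 fun F _ e hF => h F hF
    have h9 : 4 ^ (syD ρ X d i N s σ).r * m = m := by
      have : (syD ρ X d i N s σ).r = 0 := rfl
      rw [this, pow_zero, one_mul]
    rwa [h9] at h8
  · intro F F₀ _ _ hFF e e₀ τ A B hA hB hPF hPF₀
    refine h7 F F₀ hFF e e₀ (fun j => Fin.elim0 j) (fun j => Fin.elim0 j) τ A B hA hB hPF hPF₀ ?_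
    intro j _
    have e1 : prA (syD ρ X d i N s σ) e j = 1 := by
      have : (syD ρ X d i N s σ).D e j = 1 := Finset.prod_empty
      unfold prA
      rw [this]
      rfl
    have e2 : prA (syD ρ X d i N s σ) e₀ j = 1 := by
      have : (syD ρ X d i N s σ).D e₀ j = 1 := Finset.prod_empty
      unfold prA
      rw [this]
      rfl
    left
    rw [e1, e2]
    exact ⟨⟨1, one_mem _, by ring⟩, ⟨1, one_mem _, by ring⟩⟩

end

end Pool.Agent.W353.TD
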