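import Pool.Agent.W353.TD.Defs

/-! Comparison with a field of degree one. -/

set_option autoImplicit false

namespace Pool.Agent.W353.TD

open Complex Filter Topology ComplexConjugate NumberField IsDedekindDomain Asymptotics
  Pool.Agent.W401.Cheb Pool.Agent.W540.BE Pool.Agent.W353.L1 Pool.Agent.W353.NF
open Pool.Agent.W353.TP (HX sysH LL)
open Pool.Agent.W353.AB (Sy)
open Pool.Agent.H341R2 (lam)

section
variable {K : Type} [Field K] [NumberField K]

theorem fixn_bot (σ : GK K) : fixn K (⊥ : IntermediateField K (AlgebraicClosure K)) σ = 1 := by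
  unfold fixn
  have h1 : ∀ i j : (⊥ : IntermediateField K (AlgebraicClosure K)) →ₐ[K] AlgebraicClosure K,
      i = j := by
    intro i j
    refine AlgHom.ext fun x => ?_
    obtain ⟨y, hy⟩ := IntermediateField.mem_bot.1 x.2
    have hx : x = algebraMap K _ y := Subtype.ext hy.symm
    rw [hx, AlgHom.commutes, AlgHom.commutes]
  have : Unique {i : (⊥ : IntermediateField K (AlgebraicClosure K)) →ₐ[K] AlgebraicClosure K //
      act K (⊥ : IntermediateField K (AlgebraicClosure K)) σ i = i} :=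
    { default := ⟨IntermediateField.val _, h1 _ _⟩
      uniq := fun a => Subtype.ext (h1 _ _) }
  exact Nat.card_unique

variable {F F₀ : Type} [Field F] [NumberField F] [Algebra K F] [Field F₀] [NumberField F₀]
  [Algebra K F₀]

/-- **Comparison of the sizes over `F` and over a field of degree one.** -/
theorem ineq2' (h₀ : ∀ σ : GK K, fixn K F₀ σ = 1) (𝒮 : Sy K)
    (hreal : ∀ j ∈ 𝒮.P, ∀ x, (𝒮.T j x).im = 0) (τ : ℝ)
    (X₀ X : ℝ → ℝ) (hX₀ : 𝒮.IsSize (F := F₀) (fun _ => 1) τ X₀)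
    (hX : 𝒮.IsSize (F := F) (fun _ => 1) τ X) {η : ℝ} (hη : 0 < η) :
    ∀ᶠ ε : ℝ in 𝓝[>] 0, |X ε - X₀ ε| ≤ (∑ j ∈ 𝒮.P, 𝒮.b j) * (kap τ * (2 * drg K F)) + η := by
  classical
  choose σ hσ using exists_isFrob (F := K)
  have hopen := ker_act_open K F
  have hfin : Finite (GK K ⧸ (act K F).ker) := Subgroup.quotient_finite_of_isOpen _ hopen
  set N : ℝ := ∑ j ∈ 𝒮.P, 𝒮.b j with hN
  have hN0 : 0 ≤ N := Finset.sum_nonneg fun j hj => 𝒮.hb j hj
  have h1 := size_fix 𝒮 hreal σ hσ hX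
  have h2 := size_fix 𝒮 hreal σ hσ hX₀
  have hb1 : ∀ v, |(fixn K F (σ v) : ℝ) * cz τ v| ≤ Module.finrank ℚ F := by
    intro v
    rw [abs_mul, abs_of_nonneg (Nat.cast_nonneg _)]
    calc (fixn K F (σ v) : ℝ) * |cz τ v| ≤ Module.finrank ℚ F * 1 :=
          mul_le_mul (fixn_le _) (abs_cz _ _) (abs_nonneg _) (by positivity)
      _ = _ := mul_one _
  have hb2 : ∀ v, |(-1 : ℝ) * ((fixn K F₀ (σ v) : ℝ) * cz τ v)| ≤ 1 := by
    intro v
    rw [h₀, abs_mul, abs_neg, abs_one, one_mul, Nat.cast_one, one_mul]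
    exact abs_cz _ _
  have h3 := (h1.add (h2.const_mul (-1)) (abs_TT 𝒮) hb1 hb2).congr
    (Ψ' := fun v => ((fixn K F (σ v) : ℝ) - 1) * cz τ v) (X' := fun ε => X ε - X₀ ε)
    (fun v => by rw [h₀]; push_cast; ring) (fun ε => by ring)
  have hlim := real_mean (act K F).ker hopen (fun g => (fixn K F g : ℝ) - 1) (by
      intro g u hu
      rw [fixn_mul_ker K F g u hu]) (by
      intro g ρ
      rw [fixn_conj]) (by
      intro g
      rw [fixn_inv]) σ hσ τ
  rw [mean_drg] at hlim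
  refine size_le hN0 (abs_TT 𝒮) (B := (Module.finrank ℚ F : ℝ) + 1) ?_ h3 ?_ hη
  · intro v
    have h4 : |((fixn K F (σ v) : ℝ) - 1) * cz τ v| ≤
        |(fixn K F (σ v) : ℝ) * cz τ v| + |cz τ v| := by
      rw [sub_mul, one_mul]
      exact abs_sub _ _
    exact h4.trans (add_le_add (hb1 v) (abs_cz _ _))
  · intro η' hη'
    exact (hlim.eventually_lt_const (lt_add_of_pos_right _ hη')).mono fun ε hε => hε.le

end

end Pool.Agent.W353.TD
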