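import Pool.Agent.W353.TD.Rep

/-! The mean value of a rational character times the number of fixed embeddings. -/

set_option autoImplicit false

namespace Pool.Agent.W353.TD

open Complex Filter Topology ComplexConjugate NumberField IsDedekindDomain
  Pool.Agent.W401.Cheb Pool.Agent.W540.BE Pool.Agent.W353.L1
open Pool.Agent.W353.NF (act act_apply act_trans fixn fixn_conj fixn_inv ker_act_open burnside avR_ker)
open Pool.Agent.H341R2 (lam)

section
variable {K : Type} [Field K] [NumberField K] {V : Type} [AddCommGroup V] [Module ℚ V]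
  [FiniteDimensional ℚ V] (ρ : Representation ℚ (GK K) V)
  (F : Type) [Field F] [NumberField F] [Algebra K F]

/-- the action on `V` and on the embeddings of `F` -/
noncomputable def Ph : GK K →* (Module.End ℚ V)ˣ × Equiv.Perm (F →ₐ[K] AlgebraicClosure K) :=
  (MonoidHom.toHomUnits ρ).prod (act K F)

theorem Ph_open (hρ : ∃ U : Subgroup (GK K), IsOpen (U : Set (GK K)) ∧ ∀ u ∈ U, ρ u = 1) :
    IsOpen ((Ph ρ F).ker : Set (GK K)) := by
  obtain ⟨U, hU, hU1⟩ := hρ
  have h1 : U ≤ (MonoidHom.toHomUnits ρ).ker := by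
    intro u hu
    rw [MonoidHom.mem_ker]
    exact Units.ext (hU1 u hu)
  have h2 : IsOpen ((MonoidHom.toHomUnits ρ).ker : Set (GK K)) := Subgroup.isOpen_mono h1 hU
  have h3 : ((Ph ρ F).ker : Set (GK K)) =
      ((MonoidHom.toHomUnits ρ).ker : Set (GK K)) ∩ ((act K F).ker : Set (GK K)) := by
    ext σ
    rw [Set.mem_inter_iff, SetLike.mem_coe, SetLike.mem_coe, SetLike.mem_coe, MonoidHom.mem_ker,
      MonoidHom.mem_ker, MonoidHom.mem_ker, Prod.ext_iff]
    rfl
  rw [h3]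
  exact h2.inter (ker_act_open K F)

/-- the character -/
noncomputable def ch (g : GK K) : ℝ := ((LinearMap.trace ℚ V (ρ g) : ℚ) : ℝ)

open Classical in
/-- the function on the finite quotient -/
noncomputable def GG (h : (Module.End ℚ V)ˣ × Equiv.Perm (F →ₐ[K] AlgebraicClosure K)) : ℝ :=
  ((LinearMap.trace ℚ V ((h.1⁻¹ : (Module.End ℚ V)ˣ) : Module.End ℚ V) : ℚ) : ℝ) *
    (Nat.card {i // h.2 i = i} : ℝ)

theorem GG_Ph (g : GK K) : GG (K := K) F (Ph ρ F g) = ch ρ g⁻¹ * fixn K F g := by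
  unfold GG ch fixn
  have h1 : (((Ph ρ F g).1⁻¹ : (Module.End ℚ V)ˣ) : Module.End ℚ V) = ρ g⁻¹ := by
    have : (Ph ρ F g).1⁻¹ = (MonoidHom.toHomUnits ρ) g⁻¹ := (map_inv _ _).symm
    rw [this]
    rfl
  rw [h1]
  rfl

theorem GG_conj (h u : (Module.End ℚ V)ˣ × Equiv.Perm (F →ₐ[K] AlgebraicClosure K)) :
    GG (K := K) F (u * h * u⁻¹) = GG (K := K) F h := by
  unfold GG
  have h1 : LinearMap.trace ℚ V (((u * h * u⁻¹).1⁻¹ : (Module.End ℚ V)ˣ) : Module.End ℚ V) =
      LinearMap.trace ℚ V ((h.1⁻¹ : (Module.End ℚ V)ˣ) : Module.End ℚ V) := by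
    have e1 : (u * h * u⁻¹).1⁻¹ = u.1 * h.1⁻¹ * u.1⁻¹ := by
      rw [Prod.fst_mul, Prod.fst_mul, Prod.fst_inv]
      group
    rw [e1, Units.val_mul, LinearMap.trace_mul_comm, Units.val_mul, ← mul_assoc,
      Units.inv_mul, one_mul]
  have h2 : Nat.card {i // (u * h * u⁻¹).2 i = i} = Nat.card {i // h.2 i = i} := by
    refine Nat.card_congr (Equiv.subtypeEquiv u.2⁻¹ fun i => ?_)
    rw [Prod.snd_mul, Prod.snd_mul, Prod.snd_inv, Equiv.Perm.mul_apply, Equiv.Perm.mul_apply]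
    constructor
    · intro h
      rw [Equiv.Perm.eq_inv_iff_eq, h]
    · intro h
      rw [h]
      exact u.2.apply_symm_apply i
  rw [h1, h2]

theorem mean_GG [Finite (Ph ρ F).range] (i₀ : F →ₐ[K] AlgebraicClosure K) :
    (Nat.card (Ph ρ F).range : ℝ)⁻¹ * ∑ᶠ h : (Ph ρ F).range,
      GG (K := K) F (h : (Module.End ℚ V)ˣ × Equiv.Perm (F →ₐ[K] AlgebraicClosure K)) =
      Module.finrank ℚ (inv ρ i₀.fieldRange.fixingSubgroup) := by
  classical
  let _ : Fintype (Ph ρ F).range := Fintype.ofFinite _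
  set ρ' : Representation ℚ (Ph ρ F).range V :=
    (Units.coeHom (Module.End ℚ V)).comp ((MonoidHom.fst _ _).comp (Ph ρ F).range.subtype) with hρ'
  set a : (Ph ρ F).range →* Equiv.Perm (F →ₐ[K] AlgebraicClosure K) :=
    (MonoidHom.snd _ _).comp (Ph ρ F).range.subtype with ha
  let H : Subgroup (Ph ρ F).range :=
    { carrier := {g | a g i₀ = i₀}
      one_mem' := by
        change a 1 i₀ = i₀
        rw [map_one]; rfl
      mul_mem' := fun {g g'} hg hg' => by
        change a (g * g') i₀ = i₀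
        rw [map_mul, Equiv.Perm.mul_apply]
        exact (congrArg _ hg').trans hg
      inv_mem' := fun {g} hg => by
        change a g⁻¹ i₀ = i₀
        have h : a g i₀ = i₀ := hg
        rw [map_inv]
        conv_lhs => rw [← h]
        exact (a g).symm_apply_apply i₀ }
  have h1 := sum_char_fix ρ' a (fun i j => by
    obtain ⟨σ, hσ⟩ := act_trans K F i j
    exact ⟨⟨Ph ρ F σ, ⟨σ, rfl⟩⟩, hσ⟩) i₀ H (fun g => Iff.rfl)
  have h2 : inv ρ' H = inv ρ i₀.fieldRange.fixingSubgroup := by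
    have hst : ∀ σ : GK K, act K F σ i₀ = i₀ ↔ σ ∈ i₀.fieldRange.fixingSubgroup := by
      intro σ
      rw [act_apply, IntermediateField.mem_fixingSubgroup_iff]
      constructor
      · rintro h _ ⟨x, rfl⟩
        exact DFunLike.congr_fun h x
      · intro h
        exact AlgHom.ext fun x => h (i₀ x) ⟨x, rfl⟩
    ext x
    constructor
    · intro h σ hσ
      exact h ⟨Ph ρ F σ, ⟨σ, rfl⟩⟩ ((hst σ).2 hσ)
    · rintro h ⟨_, σ, rfl⟩ hg
      exact h σ ((hst σ).1 hg)
  rw [h2] at h1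
  have h3 : ∑ᶠ h : (Ph ρ F).range,
      GG (K := K) F (h : (Module.End ℚ V)ˣ × Equiv.Perm (F →ₐ[K] AlgebraicClosure K)) =
      ((∑ g : (Ph ρ F).range, LinearMap.trace ℚ V (ρ' g) *
        (Nat.card {y // a g y = y} : ℚ) : ℚ) : ℝ) := by
    rw [finsum_eq_sum_of_fintype, ← Equiv.sum_comp (Equiv.inv (Ph ρ F).range)]
    push_cast
    refine Finset.sum_congr rfl fun g _ => ?_
    unfold GG
    have e1 : ((((Equiv.inv (Ph ρ F).range) g : (Ph ρ F).range) :
        (Module.End ℚ V)ˣ × Equiv.Perm (F →ₐ[K] AlgebraicClosure K)).1⁻¹ : (Module.End ℚ V)ˣ) =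
        (g : (Module.End ℚ V)ˣ × Equiv.Perm (F →ₐ[K] AlgebraicClosure K)).1 := inv_inv _
    rw [e1]
    congr 1
    have e2 : (((Equiv.inv (Ph ρ F).range) g : (Ph ρ F).range) :
        (Module.End ℚ V)ˣ × Equiv.Perm (F →ₐ[K] AlgebraicClosure K)).2 = (a g)⁻¹ := rfl
    rw [e2]
    have e3 : Nat.card {i // (a g)⁻¹ i = i} = Nat.card {i // a g i = i} := by
      refine Nat.card_congr (Equiv.subtypeEquivRight fun i => ?_)
      rw [Equiv.Perm.inv_eq_iff_eq]
      exact eq_comm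
    rw [e3]
  rw [h3, h1, Nat.card_eq_fintype_card]
  have h4 : (Fintype.card (Ph ρ F).range : ℝ) ≠ 0 := by exact_mod_cast Fintype.card_ne_zero
  push_cast
  rw [inv_mul_cancel_left₀ h4]

/-- **Chebotarev's theorem for a character times a permutation character.** -/
theorem cheb_fix (hρ : ∃ U : Subgroup (GK K), IsOpen (U : Set (GK K)) ∧ ∀ u ∈ U, ρ u = 1)
    (i₀ : F →ₐ[K] AlgebraicClosure K)
    (σ : HeightOneSpectrum (𝓞 K) → GK K) (hσ : ∀ v, IsFrob v (σ v)) :
    (∃ B : ℝ, ∀ g : GK K, |ch ρ g⁻¹ * fixn K F g| ≤ B) ∧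
    Tendsto (fun ε : ℝ => (EP (nm K) ε fun v => ch ρ (σ v)⁻¹ * fixn K F (σ v)) / lam ε) (𝓝[>] 0)
      (𝓝 (Module.finrank ℚ (inv ρ i₀.fieldRange.fixingSubgroup))) := by
  classical
  have hopen := Ph_open ρ F hρ
  have hfin : Finite (GK K ⧸ (Ph ρ F).ker) := Subgroup.quotient_finite_of_isOpen _ hopen
  have hfin' : Finite (Ph ρ F).range :=
    Finite.of_equiv _ (QuotientGroup.quotientKerEquivRange (Ph ρ F)).toEquiv
  have hout : ∀ g : GK K, Ph ρ F (QuotientGroup.mk g : GK K ⧸ (Ph ρ F).ker).out = Ph ρ F g := by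
    intro g
    have h1 : (QuotientGroup.mk (QuotientGroup.mk g : GK K ⧸ (Ph ρ F).ker).out :
        GK K ⧸ (Ph ρ F).ker) = QuotientGroup.mk g := QuotientGroup.out_eq' _
    rw [QuotientGroup.eq, MonoidHom.mem_ker, map_mul, map_inv] at h1
    exact (inv_mul_eq_one.1 h1)
  set G : GK K ⧸ (Ph ρ F).ker → ℝ := fun q => GG (K := K) F (Ph ρ F q.out) with hG
  have hGm : ∀ g : GK K, G (QuotientGroup.mk g) = ch ρ g⁻¹ * fixn K F g := by
    intro g
    rw [hG]
    simp only
    rw [hout, GG_Ph]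
  constructor
  · let _ : Fintype (GK K ⧸ (Ph ρ F).ker) := Fintype.ofFinite _
    refine ⟨∑ q, |G q|, fun g => ?_⟩
    rw [← hGm]
    exact Finset.single_le_sum (f := fun q => |G q|) (fun q _ => abs_nonneg _) (Finset.mem_univ _)
  · have h1 := cheb_edge (Ph ρ F).ker hopen (fun q => ((G q : ℝ) : ℂ)) (by
        intro a g
        congr 1
        obtain ⟨a, rfl⟩ := QuotientGroup.mk_surjective a
        obtain ⟨g, rfl⟩ := QuotientGroup.mk_surjective g
        rw [hG]
        simp only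
        rw [← QuotientGroup.mk_inv, ← QuotientGroup.mk_mul, ← QuotientGroup.mk_mul, hout, hout,
          map_mul, map_mul, map_inv, GG_conj]) _ (avC_ofReal _ G) σ hσ 0
    rw [if_pos rfl] at h1
    have h2 : avR (Ph ρ F).ker G =
        Module.finrank ℚ (inv ρ i₀.fieldRange.fixingSubgroup) := by
      rw [hG, avR_ker (Ph ρ F) (fun h => GG (K := K) F h)]
      exact mean_GG ρ F i₀
    rw [h2] at h1
    refine h1.congr fun ε => ?_
    congr 2
    funext v
    have h3 : ((nm K v : ℕ) : ℂ) ^ (-(((0 : ℝ) : ℂ) * I)) = 1 := by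
      rw [Complex.ofReal_zero, zero_mul, neg_zero, Complex.cpow_zero]
    rw [h3, mul_one, Complex.ofReal_re, hGm]

end

end Pool.Agent.W353.TD
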