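import Pool.Agent.W353.NF.Pair
import Mathlib.RepresentationTheory.Invariants
import Mathlib.LinearAlgebra.Eigenspace.Charpoly

/-! Rational representations of the absolute Galois group and fixed embeddings. -/

set_option autoImplicit false

namespace Pool.Agent.W353.TD

open Complex Filter Topology ComplexConjugate NumberField IsDedekindDomain
  Pool.Agent.W401.Cheb Pool.Agent.W540.BE Pool.Agent.W353.L1
open Pool.Agent.W353.NF (act act_apply act_trans fixn fixn_conj fixn_inv ker_act_open burnside avR_ker)
open Pool.Agent.H341R2 (lam)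

/-- the sum of the character over a finite group -/
theorem sum_char {G V : Type*} [Group G] [Fintype G] [AddCommGroup V] [Module ℚ V]
    [FiniteDimensional ℚ V] (ρ : Representation ℚ G V) :
    ∑ g : G, LinearMap.trace ℚ V (ρ g) = Fintype.card G * Module.finrank ℚ ρ.invariants := by
  have hinv : Invertible (Fintype.card G : ℚ) :=
    invertibleOfNonzero (by exact_mod_cast Fintype.card_ne_zero)
  have h1 := (Representation.isProj_averageMap ρ).trace
  have h2 : ρ.averageMap = ⅟(Fintype.card G : ℚ) • ∑ g : G, ρ g := by
    unfold Representation.averageMap GroupAlgebra.average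
    rw [map_smul, map_sum]
    congr 1
    refine Finset.sum_congr rfl fun g _ => ?_
    exact Representation.asAlgebraHom_single_one ρ g
  rw [h2, map_smul, map_sum, smul_eq_mul] at h1
  rw [← h1, mul_invOf_cancel_left']

section
variable {G V Y : Type*} [Group G] [AddCommGroup V] [Module ℚ V]
  [FiniteDimensional ℚ V] [Finite Y]

/-- the invariants of a subgroup -/
def inv (ρ : Representation ℚ G V) (H : Subgroup G) : Submodule ℚ V where
  carrier := {x | ∀ g ∈ H, ρ g x = x}
  add_mem' {x y} hx hy g hg := by rw [map_add, hx g hg, hy g hg]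
  zero_mem' g _ := map_zero _
  smul_mem' c x hx g hg := by rw [map_smul, hx g hg]

theorem inv_eq (ρ : Representation ℚ G V) (H : Subgroup G) :
    inv ρ H = (Representation.invariants (ρ.comp H.subtype)) := by
  ext x
  constructor
  · intro h g
    exact h g g.2
  · intro h g hg
    exact h ⟨g, hg⟩

/-- the sum of the character over the stabilizer of a point -/
theorem sum_stab [Fintype G] (ρ : Representation ℚ G V) (H : Subgroup G) [Fintype H] :
    ∑ g : H, LinearMap.trace ℚ V (ρ g) = Fintype.card H * Module.finrank ℚ (inv ρ H) := by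
  rw [inv_eq]
  exact sum_char (ρ.comp H.subtype)

/-- **Mean value of a character times a permutation character.** -/
theorem sum_char_fix [Fintype G] [Nonempty Y] (ρ : Representation ℚ G V) (a : G →* Equiv.Perm Y)
    (ht : ∀ x y, ∃ g, a g x = y) (y₀ : Y) (H : Subgroup G) (hH : ∀ g, g ∈ H ↔ a g y₀ = y₀) :
    ∑ g : G, LinearMap.trace ℚ V (ρ g) * (Nat.card {y // a g y = y} : ℚ) =
      Fintype.card G * Module.finrank ℚ (inv ρ H) := by
  classical
  let _ : Fintype Y := Fintype.ofFinite Y
  let _ : Fintype H := Fintype.ofFinite H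
  have hcard : ∀ g : G, (Nat.card {y // a g y = y} : ℚ) = ∑ y : Y, if a g y = y then (1 : ℚ) else 0 := by
    intro g
    rw [Nat.card_eq_fintype_card, Fintype.card_subtype, Finset.sum_boole]
  -- sums over stabilizers
  have hst : ∀ (f : G → ℚ), (∀ g u, f (u * g * u⁻¹) = f g) → ∀ y : Y,
      (∑ g : G, if a g y = y then f g else 0) = ∑ g : H, f g := by
    intro f hf y
    obtain ⟨u, hu⟩ := ht y₀ y
    rw [← Finset.sum_filter]
    refine Finset.sum_bij' (i := fun g hg => (⟨u⁻¹ * g * u, ?_⟩ : H))
      (j := fun h _ => u * (h : G) * u⁻¹) ?_ ?_ ?_ ?_ ?_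
    · rw [hH, map_mul, map_mul, Equiv.Perm.mul_apply, Equiv.Perm.mul_apply, hu,
        (Finset.mem_filter.1 hg).2, ← hu, map_inv]
      exact (a u).symm_apply_apply y₀
    · intro g hg
      exact Finset.mem_univ _
    · intro h _
      rw [Finset.mem_filter]
      refine ⟨Finset.mem_univ _, ?_⟩
      have h1 : a (h : G) y₀ = y₀ := (hH _).1 h.2
      have h2 : (a u)⁻¹ y = y₀ := by
        rw [← hu]
        exact (a u).symm_apply_apply y₀
      rw [map_mul, map_mul, Equiv.Perm.mul_apply, Equiv.Perm.mul_apply, map_inv, h2, h1, hu]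
    · intro g _
      simp only
      group
    · intro h _
      refine Subtype.ext ?_
      simp only
      group
    · intro g _
      simp only
      have := hf g u⁻¹
      rw [inv_inv] at this
      exact this.symm
  have hsw : ∀ f : G → ℚ, (∀ g u, f (u * g * u⁻¹) = f g) →
      ∑ g : G, f g * (Nat.card {y // a g y = y} : ℚ) = Fintype.card Y * ∑ g : H, f g := by
    intro f hf
    have h1 : ∀ g : G, f g * (Nat.card {y // a g y = y} : ℚ) =
        ∑ y : Y, if a g y = y then f g else 0 := by
      intro g
      rw [hcard, Finset.mul_sum]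
      exact Finset.sum_congr rfl fun y _ => by rw [mul_ite, mul_one, mul_zero]
    rw [Finset.sum_congr rfl fun g _ => h1 g, Finset.sum_comm,
      Finset.sum_congr rfl fun y _ => hst f hf y, Finset.sum_const, Finset.card_univ,
      nsmul_eq_mul]
  have hb : (Fintype.card Y : ℚ) * Fintype.card H = Fintype.card G := by
    have h1 := hsw (fun _ => 1) fun _ _ => rfl
    simp only [one_mul, Finset.sum_const, Finset.card_univ, nsmul_eq_mul, mul_one] at h1
    rw [← h1]
    have h2 := burnside a ht
    rw [finsum_eq_sum_of_fintype, Nat.card_eq_fintype_card] at h2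
    exact_mod_cast h2
  have hcl : ∀ g u : G, LinearMap.trace ℚ V (ρ (u * g * u⁻¹)) = LinearMap.trace ℚ V (ρ g) := by
    intro g u
    rw [map_mul, LinearMap.trace_mul_comm, ← map_mul, show u⁻¹ * (u * g) = g by group]
  rw [hsw _ hcl, sum_stab, ← mul_assoc, hb]

end

end Pool.Agent.W353.TD
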