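import Pool.Agent.W353.TD.Mean
import Pool.Agent.W353.PV.Sys

/-! The system of the complement of the algebraic part. -/

set_option autoImplicit false

namespace Pool.Agent.W353.TD

open Complex Filter Topology ComplexConjugate NumberField IsDedekindDomain Asymptotics
  Pool.Agent.W401.Cheb Pool.Agent.W540.BE Pool.Agent.W353.L1
open Pool.Agent.W353.TP (HX sysH push push_abs_le qh qh_abs qh_eq res LL LL_tendsto E_H bdd_isLittleO
  lam0_sub)
open Pool.Agent.W353.AB (Sy vq)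
open Pool.Agent.W353.NF (vx EP_eq EH_le push_fix fixn fixn_le)
open Pool.Agent.W353.PV (tF syX)
open Pool.Agent.H341R2 (lam lam_tendsto sysK)

section
variable {K : Type} [Field K] [NumberField K] {n : ℕ} {V : Type} [AddCommGroup V] [Module ℚ V]
  [FiniteDimensional ℚ V] (ρ : Representation ℚ (GK K) V)
  (X : Set (MvPolynomial (Fin n) (𝓞 K))) (d i N s : ℕ)
  (σ : HeightOneSpectrum (𝓞 K) → GK K)

open Classical in
/-- the normalised trace on the complement -/
noncomputable def tD (x : HX K) : ℝ :=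
  if |tF X d i N K (vx x) - ch ρ (σ (vx x))⁻¹| ≤ s then
    tF X d i N K (vx x) - ch ρ (σ (vx x))⁻¹ else 0

theorem abs_tD (x : HX K) : |tD ρ X d i N s σ x| ≤ s := by
  unfold tD
  split_ifs with h
  · exact h
  · rw [abs_zero]
    exact Nat.cast_nonneg _

/-- the system of the complement -/
noncomputable def syD : Sy K where
  ι := Unit
  P := {()}
  r := 0
  A _ := ∅
  T _ x := ((tD ρ X d i N s σ x : ℝ) : ℂ)
  b _ := s
  hb _ _ := Nat.cast_nonneg _
  hT _ _ x := by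
    rw [Complex.norm_real, Real.norm_eq_abs]
    exact abs_tD _ _ _ _ _ _ _ _

theorem syD_real : ∀ j ∈ (syD ρ X d i N s σ).P, ∀ x, ((syD ρ X d i N s σ).T j x).im = 0 :=
  fun _ _ _ => Complex.ofReal_im _

theorem syD_b : ∑ j ∈ (syD ρ X d i N s σ).P, (syD ρ X d i N s σ).b j = s := by
  have e1 : ∑ j ∈ (syD ρ X d i N s σ).P, (syD ρ X d i N s σ).b j =
      ∑ _j ∈ ({()} : Finset Unit), (s : ℝ) := rfl
  rw [e1, Finset.sum_singleton]

variable {F : Type} [Field F] [NumberField F] [Algebra K F]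

theorem vq_zero (t : ℝ) (x : HX K) : (((t : ℝ) : ℂ) * conj (vq K (1 : 𝓞 F) 0 x)).re =
    t * push K (qh (1 : 𝓞 F)) x := by
  unfold vq
  have h3 : ((x.1 : ℕ) : ℂ) ^ (((0 : ℝ) : ℂ) * I) = 1 := by
    rw [Complex.ofReal_zero, zero_mul, Complex.cpow_zero]
  rw [h3, mul_one, Complex.conj_ofReal, ← Complex.ofReal_mul, Complex.ofReal_re]

/-- **The sizes on the complement.** -/
theorem size_D (hσ : ∀ v, IsFrob v (σ v))
    (hgood : ∀ᶠ v in cofinite, |tF X d i N K v - ch ρ (σ v)⁻¹| ≤ s)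
    (hρ : ∃ U : Subgroup (GK K), IsOpen (U : Set (GK K)) ∧ ∀ u ∈ U, ρ u = 1)
    (e : Fin 0 → 𝓞 F) (A : ℝ → ℝ) (hA : (syX X d i N).IsSize (F := F) e 0 A)
    (i₀ : F →ₐ[K] AlgebraicClosure K) :
    (syD ρ X d i N s σ).IsSize (F := F) e 0
      (fun ε => A ε - Module.finrank ℚ (inv ρ i₀.fieldRange.fixingSubgroup)) := by
  classical
  obtain ⟨⟨B, hB⟩, hlim⟩ := cheb_fix ρ F hρ i₀ σ hσ
  set D : ℝ := (Module.finrank ℚ (inv ρ i₀.fieldRange.fixingSubgroup) : ℝ) with hD
  set ψ : HeightOneSpectrum (𝓞 K) → ℝ := fun v => ch ρ (σ v)⁻¹ * fixn K F (σ v) with hψ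
  have hψB : ∀ v, |ψ v| ≤ B := fun v => hB _
  obtain ⟨ψH, hψH⟩ : ∃ ψH : HX K → ℝ, ∀ x, ψH x = ψ (vx x) := ⟨_, fun _ => rfl⟩
  have hB0 : 0 ≤ B := (abs_nonneg _).trans (hB 1)
  obtain ⟨S, hS⟩ := push_fix K F
  have hbad : {v | ¬ |tF X d i N K v - ch ρ (σ v)⁻¹| ≤ s}.Finite := by
    rwa [Filter.eventually_cofinite] at hgood
  set S' : Finset (HeightOneSpectrum (𝓞 K)) := S ∪ hbad.toFinset with hS'
  set f : ℝ := (Module.finrank ℚ F : ℝ) with hf
  have hf0 : 0 ≤ f := by positivity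
  have hpu : ∀ x : HX K, |push K (qh (1 : 𝓞 F)) x| ≤ f := by
    intro x
    have := push_abs_le (K := K) (qh_abs (1 : 𝓞 F)) x
    rwa [mul_one] at this
  have htF : ∀ x : HX K, |tF X d i N K (vx x)| ≤ N := fun x => abs_tr_le _ _ _
  have htD : ∀ x : HX K, |tD ρ X d i N s σ x| ≤ s := fun x => abs_tD _ _ _ _ _ _ _ _
  set φ : HX K → ℝ := fun x => (tF X d i N K (vx x) - tD ρ X d i N s σ x) *
    push K (qh (1 : 𝓞 F)) x - ψ (vx x) with hφ
  set C : ℝ := (N + s) * f + B with hC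
  have hC0 : 0 ≤ C := by positivity
  have hφ0 : ∀ x, vx x ∉ S' → φ x = 0 := by
    intro x hx
    rw [hS', Finset.mem_union, not_or] at hx
    have h1 : |tF X d i N K (vx x) - ch ρ (σ (vx x))⁻¹| ≤ s := by
      by_contra h
      exact hx.2 (by rw [Set.Finite.mem_toFinset]; exact h)
    rw [hφ]
    simp only
    unfold tD
    rw [if_pos h1, hS x hx.1 _ (hσ _), hψ]
    ring
  have hφb : ∀ x, |φ x| ≤ C * (if vx x ∈ S' then 1 else 0) := by
    intro x
    by_cases h : vx x ∈ S'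
    · rw [if_pos h, mul_one, hφ]
      simp only
      refine (abs_sub _ _).trans (add_le_add ?_ (hψB _))
      rw [abs_mul]
      exact mul_le_mul ((abs_sub _ _).trans (add_le_add (htF x) (htD x))) (hpu x)
        (abs_nonneg _) (by positivity)
    · rw [hφ0 x h, abs_zero, if_neg h, mul_zero]
  obtain ⟨C₁, hC₁⟩ := EH_le (K := K) (φ := φ) (g := fun v => C * (if v ∈ S' then 1 else 0))
    (B := C) (fun v => by
      split_ifs
      · rw [mul_one, abs_of_nonneg hC0]
      · rw [mul_zero, abs_zero]; exact hC0) hφb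
  have hEP : ∀ ε : ℝ, 0 < ε → EP (nm K) ε (fun v => C * (if v ∈ S' then 1 else 0)) ≤
      S'.card * C := by
    intro ε hε
    refine (le_abs_self _).trans (EP_finsupp normSys S' _ (fun v hv => ?_) _ (fun v => ?_) hε)
    · rw [if_neg hv, mul_zero]
    · split_ifs
      · rw [mul_one, abs_of_nonneg hC0]
      · rw [mul_zero, abs_zero]; exact hC0
  -- the error terms
  have o1 : (fun ε => (sysH K).E ε φ) =o[𝓝[>] 0] LL := by
    refine bdd_isLittleO ⟨S'.card * C + C₁, ?_⟩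
    filter_upwards [self_mem_nhdsWithin] with ε hε
    exact (hC₁ ε hε).trans (add_le_add (hEP ε hε) (le_refl C₁))
  have o2 : (fun ε => (sysK K).E ε ψ - (sysH K).E ε ψH) =o[𝓝[>] 0] LL := by
    refine bdd_isLittleO ⟨B * Module.finrank ℚ K * Pool.Agent.H921R2.TatePole.C0, ?_⟩
    filter_upwards [self_mem_nhdsWithin] with ε hε
    have e0 : ψH = fun x => ψ (vx x) := funext hψH
    rw [e0]
    exact E_H hψB hε
  have o3 : (fun ε => (sysK K).E ε ψ - D * lam ε) =o[𝓝[>] 0] LL := by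
    have h1 : Tendsto (fun ε : ℝ => (EP (nm K) ε ψ) / lam ε - D) (𝓝[>] 0) (𝓝 0) := by
      have := hlim.sub_const D
      rwa [sub_self] at this
    have h2 := ((isLittleO_one_iff ℝ).2 h1).mul_isBigO Pool.Agent.W353.TP.lam0_isBigO
    have h3 : (fun ε : ℝ => ((EP (nm K) ε ψ) / lam ε - D) * lam ε) =o[𝓝[>] 0] LL := by
      simpa using h2
    refine h3.congr' ?_ (EventuallyEq.refl _ _)
    filter_upwards [lam_tendsto.eventually_gt_atTop 0] with ε h4
    rw [sub_mul, div_mul_cancel₀ _ h4.ne', EP_eq]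
  have o4 : (fun ε => D * (lam ε - LL ε)) =o[𝓝[>] 0] LL := lam0_sub.const_mul_left D
  unfold Sy.IsSize at hA ⊢
  refine ((((hA.add o1).sub o2).add o3).add o4).congr' ?_ (EventuallyEq.refl _ _)
  filter_upwards [self_mem_nhdsWithin] with ε hε
  have hε' : (0 : ℝ) < ε := hε
  have e1 : (syX X d i N).corr (F := F) e 0 ε =
      (sysH K).E ε fun x : HX K => tF X d i N K (vx x) * push K (qh (1 : 𝓞 F)) x := by
    have e3 : (syX X d i N).corr (F := F) e 0 ε =
        ∑ _j ∈ ({()} : Finset Unit), (sysH K).E ε fun x : HX K =>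
          (((tF X d i N K (vx x) : ℝ) : ℂ) *
            conj (vq K (∏ j ∈ (∅ : Finset (Fin 0)), e j) 0 x)).re := rfl
    rw [e3, Finset.sum_singleton, Finset.prod_empty]
    congr 1
    funext x
    exact vq_zero _ x
  obtain ⟨θ, hθ⟩ : ∃ θ : HX K → ℝ, ∀ x, θ x = tD ρ X d i N s σ x * push K (qh (1 : 𝓞 F)) x :=
    ⟨_, fun _ => rfl⟩
  have e2 : (syD ρ X d i N s σ).corr (F := F) e 0 ε = (sysH K).E ε θ := by
    have e3 : (syD ρ X d i N s σ).corr (F := F) e 0 ε =
        ∑ _j ∈ ({()} : Finset Unit), (sysH K).E ε fun x : HX K =>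
          (((tD ρ X d i N s σ x : ℝ) : ℂ) *
            conj (vq K (∏ j ∈ (∅ : Finset (Fin 0)), e j) 0 x)).re := rfl
    rw [e3, Finset.sum_singleton, Finset.prod_empty]
    congr 1
    funext x
    rw [hθ]
    exact vq_zero _ x
  have hb1 : ∀ x : HX K, |φ x| ≤ C := by
    intro x
    refine (hφb x).trans ?_
    split_ifs
    · rw [mul_one]
    · rw [mul_zero]; exact hC0
  have hb2 : ∀ x : HX K, |ψH x| ≤ B := fun x => by
    rw [hψH]
    exact hψB _
  have hb3 : ∀ x : HX K, |θ x| ≤ s * f := by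
    intro x
    rw [hθ, abs_mul]
    exact mul_le_mul (htD x) (hpu x) (abs_nonneg _) (Nat.cast_nonneg _)
  have hb4 : ∀ x : HX K, |φ x + ψH x| ≤ C + B := fun x =>
    (abs_add_le _ _).trans (add_le_add (hb1 x) (hb2 x))
  have e4 : (sysH K).E ε (fun x : HX K => tF X d i N K (vx x) * push K (qh (1 : 𝓞 F)) x) =
      (sysH K).E ε φ + (sysH K).E ε ψH + (sysH K).E ε θ := by
    rw [← (sysH K).E_add hε' hb1 hb2, ← (sysH K).E_add hε' hb4 hb3]
    congr 1
    funext x
    rw [hφ, hψH, hθ]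
    ring
  rw [e1, e2, e4]
  ring

end

end Pool.Agent.W353.TD
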